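import Pool.Agent.N641.VB.Stm10
import Pool.Agent.N700.VB.AUB

set_option autoImplicit false
set_option linter.unusedVariables false
set_option linter.unusedSectionVars false

/-!
# Boolean algebras with a finite abelian group of automorphisms are bi-interpretable with Boolean
algebras with ideals

Leaf VB/AGB (helper280), project VB (helper641); adapted from the case of an automorphism of prime
order (helper700).
-/

namespace Pool.Agent.N280.VB.AGB

open FirstOrder FirstOrder.Language Pool.Agent.N641.VB Pool.Agent.N700.VB.AUB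
open scoped symmDiff

/-- the monoid of the subsets of `G` with the union -/
@[reducible] def unM (G : Type) : AddCommMonoid (G → Prop) :=
  @Pi.addCommMonoid G (fun _ => Prop) (fun _ => orM)

section cl

variable (DPC : S_DPC) {L : FirstOrder.Language.{0, 0}} {U α : Type} {S : L.Structure U}

include DPC

theorem dexN {β : Type} [Finite β] {P : (α → U) → (β → U) → Prop}
    (h : DefP S (fun v : α ⊕ β → U => P (fun i => v (Sum.inl i)) (fun j => v (Sum.inr j)))) :
    DefP S (fun v => ∃ w, P v w) :=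
  dcg ((DPC L U S).2.2.2.2.2.1 α β _ h).1 fun v => Iff.rfl

theorem dfex {ι : Type} [Finite ι] {P : ι → (α → U) → Prop} (h : ∀ i, DefP S (P i)) :
    DefP S (fun v => ∃ i, P i v) := ((DPC L U S).2.2.2.2.2.2.1 α ι P h).2

end cl

section A

variable (DPC : S_DPC) {G U : Type} [BooleanAlgebra U] {s : G → U → U}

include DPC

theorem leG {α : Type} (a b : α) : DefP (strG (· ≤ ·) s) (fun v : α → U => v a ≤ v b) :=
  dcg (drel DPC (S := strG (· ≤ ·) s) (RelG.le : RelG 2) ![a, b]) fun v => Iff.rfl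

theorem fG (h : G) {α : Type} (a b : α) :
    DefP (strG (· ≤ ·) s) (fun v : α → U => s h (v a) = v b) :=
  dcg (dfun DPC (S := strG (· ≤ ·) s) (FunG.act h : FunG G 1) ![a] b) fun v => Iff.rfl

theorem djG {α : Type} (a b : α) :
    DefP (strG (· ≤ ·) s) (fun v : α → U => v a ⊓ v b = ⊥) := by
  refine dcg (dall DPC (P := fun v w => w ≤ v a → w ≤ v b → ∀ y, w ≤ y) ?_) fun v => ?_
  · refine dimp DPC (leG DPC _ _) (dimp DPC (leG DPC _ _) ?_)
    exact dall DPC (P := fun v y => v (Sum.inr ()) ≤ y) (leG DPC _ _)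
  · exact ⟨fun h => le_bot_iff.1 (h _ inf_le_left inf_le_right ⊥),
      fun h w h1 h2 y => (le_inf h1 h2).trans (h.le.trans bot_le)⟩

theorem sdj (h : G) {α : Type} (a : α) :
    DefP (strG (· ≤ ·) s) (fun v : α → U => v a ⊓ s h (v a) = ⊥) := by
  refine dcg (dex DPC (P := fun v w => s h (v a) = w ∧ v a ⊓ w = ⊥) ?_) fun v => ?_
  · exact dand DPC (fG DPC h _ _) (djG DPC _ _)
  · exact ⟨fun ⟨w, h, k⟩ => by rw [h]; exact k, fun h => ⟨_, rfl, h⟩⟩

theorem avG (N : ℕ) (h : G) {α : Type} (a : α) :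
    DefP (strG (· ≤ ·) s) (fun v : α → U => AvoidP N (s h) (v a)) := by
  refine dexN DPC (P := fun v d => (∀ j : Fin N, d j ⊓ s h (d j) = ⊥) ∧
      ∀ x, (∀ j : Fin N, d j ≤ x) ↔ v a ≤ x) ?_
  refine dand DPC (dfin DPC fun j => sdj DPC h _) ?_
  refine dall DPC (P := fun v x => (∀ j : Fin N, v (Sum.inr j) ≤ x) ↔ v (Sum.inl a) ≤ x) ?_
  exact diff DPC (dfin DPC fun i => leG DPC _ _) (leG DPC _ _)

end A

/-! ### elements that are joins of elements that are moved away -/

section F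

variable {G U : Type} [CommGroup G] [BooleanAlgebra U] {s : G → U → U} {N : ℕ}

/-- the order isomorphism -/
def sOG (hs : ∀ g a b, a ≤ b ↔ s g a ≤ s g b) (h1 : ∀ a, s 1 a = a)
    (hm : ∀ g h a, s (g * h) a = s g (s h a)) (g : G) : U ≃o U where
  toFun := s g
  invFun := s g⁻¹
  left_inv := fun a => by rw [← hm, inv_mul_cancel, h1]
  right_inv := fun a => by rw [← hm, mul_inv_cancel, h1]
  map_rel_iff' := (hs _ _ _).symm

theorem av_bot {t : U → U} : AvoidP N t (⊥ : U) :=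
  ⟨fun _ => ⊥, fun _ => bot_inf_eq _, fun x => ⟨fun _ => bot_le, fun _ _ => bot_le⟩⟩

theorem av_mono {t : U → U} (ht : ∀ a b, a ≤ b → t a ≤ t b) {c c' : U} (hc : AvoidP N t c)
    (hle : c' ≤ c) : AvoidP N t c' := by
  obtain ⟨d, h1, h2⟩ := hc
  refine ⟨fun j => d j ⊓ c', fun j => ?_, fun x => ?_⟩
  · refine le_bot_iff.1 ?_
    rw [← h1 j]
    exact inf_le_inf inf_le_left (ht _ _ inf_le_left)
  · simp only [← le_himp_iff]
    rw [h2, le_himp_iff, inf_eq_right.2 hle]

theorem av_sup {t : U → U} (ht : ∀ a b, a ≤ b → t a ≤ t b) (hts : ∀ a b, t (a ⊔ b) = t a ⊔ t b)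
    {c c' : U} (hc : AvoidP N t c) (hc' : AvoidP N t c') (hf : t c = c) (hf' : t c' = c')
    (hd : c ⊓ c' = ⊥) : AvoidP N t (c ⊔ c') := by
  obtain ⟨d, h1, h2⟩ := hc
  obtain ⟨d', h1', h2'⟩ := hc'
  have k : ∀ i, d i ≤ c := (h2 c).2 le_rfl
  have k' : ∀ i, d' i ≤ c' := (h2' c').2 le_rfl
  have kt : ∀ i, t (d i) ≤ c := fun i => (ht _ _ (k i)).trans hf.le
  have kt' : ∀ i, t (d' i) ≤ c' := fun i => (ht _ _ (k' i)).trans hf'.le
  refine ⟨fun i => d i ⊔ d' i, fun j => ?_, fun x => ?_⟩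
  · show (d j ⊔ d' j) ⊓ t (d j ⊔ d' j) = ⊥
    rw [hts, inf_sup_left, inf_sup_right, inf_sup_right, h1 j, h1' j, bot_sup_eq, sup_bot_eq]
    refine le_bot_iff.1 (sup_le ?_ ?_)
    · rw [inf_comm, ← hd]
      exact inf_le_inf (kt j) (k' j)
    · rw [← hd]
      exact inf_le_inf (k j) (kt' j)
  · simp only [sup_le_iff, ← h2 x, ← h2' x]
    exact ⟨fun h => ⟨fun i => (h i).1, fun i => (h i).2⟩, fun h i => ⟨h.1 i, h.2 i⟩⟩

/-- the fixed elements -/
def fxG (hs : ∀ g a b, a ≤ b ↔ s g a ≤ s g b) (h1 : ∀ a, s 1 a = a)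
    (hm : ∀ g h a, s (g * h) a = s g (s h a)) : BooleanSubalgebra U where
  carrier := {c | ∀ h, s h c = c}
  supClosed' := fun a ha b hb h => by
    have : s h (a ⊔ b) = s h a ⊔ s h b := map_sup (sOG hs h1 hm h) a b
    rw [this, ha, hb]
  infClosed' := fun a ha b hb h => by
    have : s h (a ⊓ b) = s h a ⊓ s h b := map_inf (sOG hs h1 hm h) a b
    rw [this, ha, hb]
  compl_mem' := fun {a} ha h => by
    have : s h (aᶜ) = (s h a)ᶜ := map_compl' (sOG hs h1 hm h) a
    rw [this, ha]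
  bot_mem' := fun h => map_bot (sOG hs h1 hm h)

end F

/-! ### the bi-interpretation -/

theorem main (DPC : S_DPC) {G U : Type} [CommGroup G] [Finite G] [BooleanAlgebra U]
    {s : G → U → U} {N : ℕ} {Φ : U → G → U} (ε : Fin N ≃ G)
    (h1 : ∀ b g h, s h (Φ b g) = Φ b g) (h2 : ∀ a b, a ≤ b ↔ ∀ i, Φ a i ≤ Φ b i)
    (h3 : ∀ b g h, Φ (s h b) g = Φ b (h⁻¹ * g)) (h4 : ∀ b, (∀ h, s h b = b) → ∀ i, Φ b i = b)
    (h5 : ∀ b g h, AvoidP N (s h) (symmDiff (Φ b g) (Φ b (g * h))))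
    (h6 : ∀ c : G → U, (∀ g h, s h (c g) = c g) →
      (∀ g h, AvoidP N (s h) (symmDiff (c g) (c (g * h)))) → ∃ b, Φ b = c)
    {C : Type} [BooleanAlgebra C] (e : C → U) (hle : ∀ a b, a ≤ b ↔ e a ≤ e b)
    (hfix : ∀ u, (∀ h, s h u = u) ↔ ∃ c, e c = u)
    (hsym : ∀ a b, e (symmDiff a b) = symmDiff (e a) (e b)) (mu : C → G → Prop)
    (hmu : ∀ c h, mu c h = ¬ AvoidP N (s h) (e c)) :
    BiU (strG (· ≤ ·) s) mu := by
  have einj : ∀ a b, e a = e b → a = b := fun a b h =>
    le_antisymm ((hle _ _).2 h.le) ((hle _ _).2 h.ge)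
  have Φinj : ∀ a b, Φ a = Φ b → a = b := fun a b h =>
    le_antisymm ((h2 _ _).2 fun i => by rw [h]) ((h2 _ _).2 fun i => by rw [h])
  set D : (Fin N → C) → Prop := fun v => ∀ g h : G, AvoidP N (s h)
    (symmDiff (e (v (ε.symm g))) (e (v (ε.symm (g * h))))) with hDdef
  have hg0 : ∀ v : Fin N → C, ∃ b, D v → ∀ i, Φ b (ε i) = e (v i) := by
    intro v
    by_cases hv : D v
    · obtain ⟨b, hb⟩ := h6 (fun k => e (v (ε.symm k))) (fun g h => (hfix _).2 ⟨_, rfl⟩ h)
        (fun g h => hv g h)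
      refine ⟨b, fun _ i => ?_⟩
      rw [hb]
      show e (v (ε.symm (ε i))) = _
      rw [ε.symm_apply_apply]
    · exact ⟨⊥, fun h => absurd h hv⟩
  choose g hg using hg0
  have gi : ∀ v b, (D v ∧ g v = b) ↔ ∀ i, Φ b (ε i) = e (v i) := by
    intro v b
    constructor
    · rintro ⟨hv, rfl⟩
      exact hg v hv
    · intro h
      have hv : D v := fun i j => by
        rw [← h (ε.symm i), ← h (ε.symm (i * j)), ε.apply_symm_apply, ε.apply_symm_apply]
        exact h5 _ _ _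
      refine ⟨hv, Φinj _ _ (funext fun k => ?_)⟩
      have := hg v hv (ε.symm k)
      rw [← h (ε.symm k), ε.apply_symm_apply] at this
      exact this
  have hf0 : ∀ x : Fin 1 → U, ∃ c, (∀ h, s h (x 0) = x 0) → e c = x 0 := by
    intro x
    by_cases hx : ∀ h, s h (x 0) = x 0
    · obtain ⟨c, hc⟩ := (hfix _).1 hx
      exact ⟨c, fun _ => hc⟩
    · exact ⟨⊥, fun h => absurd h hx⟩
  choose f hf using hf0
  have hD : ∀ {α : Type} (k : Fin N → α),
      DefP (str (· ≤ ·) mu) (fun v : α → C => D (fun j => v (k j))) := by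
    intro α k
    refine dcg (dfin DPC (P := fun (gh : G × G) (v : α → C) =>
      ∃ x : {x : G → Prop // ¬ x gh.2},
        mu (symmDiff (v (k (ε.symm gh.1))) (v (k (ε.symm (gh.1 * gh.2))))) = x.1)
      fun gh => dfex DPC fun x => freeT DPC _ _ _) fun v => ?_
    constructor
    · intro h i j
      obtain ⟨x, hx⟩ := h (i, j)
      have hx2 := x.2
      rw [← hx, hmu, hsym, not_not] at hx2
      exact hx2
    · intro h ij
      refine ⟨⟨_, ?_⟩, rfl⟩
      rw [hmu, hsym, not_not]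
      exact h _ _
  have gle : ∀ v w, D v → D w → (g v ≤ g w ↔ ∀ j, v j ≤ w j) := by
    intro v w hv hw
    rw [h2]
    constructor
    · intro h j
      have := h (ε j)
      rw [hg v hv, hg w hw] at this
      exact (hle _ _).2 this
    · intro h k
      obtain ⟨j, rfl⟩ := ε.surjective k
      rw [hg v hv, hg w hw]
      exact (hle _ _).1 (h j)
  have geq : ∀ v w, D v → D w → (g v = g w ↔ ∀ j, v j = w j) := by
    intro v w hv hw
    rw [le_antisymm_iff, gle v w hv hw, gle w v hw hv]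
    exact ⟨fun h j => le_antisymm (h.1 j) (h.2 j), fun h => ⟨fun j => (h j).le, fun j => (h j).ge⟩⟩
  have gs : ∀ (h : G) v w, D v → D w →
      (s h (g v) = g w ↔ ∀ j, w j = v (ε.symm (h⁻¹ * ε j))) := by
    intro a v w hv hw
    constructor
    · intro h j
      have := h3 (g v) (ε j) a
      rw [h, hg w hw] at this
      obtain ⟨k, hk⟩ := ε.surjective (a⁻¹ * ε j)
      rw [← hk, hg v hv] at this
      rw [← hk, ε.symm_apply_apply]
      exact einj _ _ this
    · intro h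
      refine Φinj _ _ (funext fun k => ?_)
      obtain ⟨j, rfl⟩ := ε.surjective k
      rw [h3, hg w hw, h j]
      obtain ⟨k, hk⟩ := ε.surjective (a⁻¹ * ε j)
      rw [← hk, hg v hv, ε.symm_apply_apply]
  have hE : ∀ {α : Type} (a : α),
      DefP (strG (· ≤ ·) s) (fun v : α → U => ∀ h, s h (v a) = v a) := fun a =>
    dfin DPC fun h => fG DPC h a a
  refine ⟨1, N, D, g, fun x => ∀ h, s h (x 0) = x 0, f, ?_, ?_, ?_, ?_, ?_, ?_, ?_, ?_, ?_, ?_⟩
  · exact hD (fun j => j)
  · intro b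
    have hc : ∀ i, ∃ c, e c = Φ b i := fun i => (hfix _).1 (h1 b i)
    choose c hc using hc
    refine ⟨fun i => c (ε i), (gi _ _).2 fun i => (hc _).symm⟩
  · refine dcg (dand DPC (dfin DPC (P := fun (i : Fin 2) (v : Fin 2 × Fin N → C) =>
      D (fun j => v (i, j))) fun i => hD _) (dfin DPC (P := fun (j : Fin N)
      (v : Fin 2 × Fin N → C) => v (0, j) = v (1, j)) fun j => deq DPC _ _)) fun v => ?_
    constructor
    · rintro ⟨h, k⟩
      exact ⟨h, (geq _ _ (h 0) (h 1)).2 k⟩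
    · rintro ⟨h, k⟩
      exact ⟨h, (geq _ _ (h 0) (h 1)).1 k⟩
  · rintro l (R : RelG l)
    cases R
    refine dcg (dand DPC (dfin DPC (P := fun (i : Fin 2) (v : Fin 2 × Fin N → C) =>
      D (fun j => v (i, j))) fun i => hD _) (dfin DPC (P := fun (j : Fin N)
      (v : Fin 2 × Fin N → C) => v (0, j) ≤ v (1, j)) fun j => leT DPC _ _)) fun v => ?_
    constructor
    · rintro ⟨h, k⟩
      exact ⟨h, (gle _ _ (h 0) (h 1)).2 k⟩
    · rintro ⟨h, k⟩
      exact ⟨h, (gle _ _ (h 0) (h 1)).1 k⟩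
  · rintro l (F : FunG G l)
    obtain ⟨a⟩ := F
    refine dcg (dand DPC (dfin DPC (P := fun (i : Fin 2) (v : Fin 2 × Fin N → C) =>
      D (fun j => v (i, j))) fun i => hD _) (dfin DPC (P := fun (j : Fin N)
      (v : Fin 2 × Fin N → C) => v (1, j) = v (0, ε.symm (a⁻¹ * ε j))) fun j => deq DPC _ _))
      fun v => ?_
    constructor
    · rintro ⟨h, k⟩
      exact ⟨h, (gs a _ _ (h 0) (h 1)).2 k⟩
    · rintro ⟨h, k⟩
      exact ⟨h, (gs a _ _ (h 0) (h 1)).1 k⟩
  · exact hE _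
  · intro b
    refine ⟨fun _ => e b, (hfix _).2 ⟨_, rfl⟩, einj _ _ ?_⟩
    exact hf (fun _ => e b) ((hfix _).2 ⟨_, rfl⟩)
  · refine dcg (dand DPC (dfin DPC (P := fun (i : Fin 2) (v : Fin 2 × Fin 1 → U) =>
      ∀ h, s h (v (i, 0)) = v (i, 0)) fun i => hE _) (leG DPC (0, 0) (1, 0))) fun v => ?_
    constructor
    · rintro ⟨h, k⟩
      refine ⟨h, (hle _ _).2 ?_⟩
      rw [hf (fun j => v (0, j)) (h 0), hf (fun j => v (1, j)) (h 1)]
      exact k
    · rintro ⟨h, k⟩
      refine ⟨h, ?_⟩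
      have := (hle _ _).1 k
      rw [hf (fun j => v (0, j)) (h 0), hf (fun j => v (1, j)) (h 1)] at this
      exact this
  · intro c
    refine dcg (dand DPC (hE 0) (dfin DPC (P := fun (h : G) (x : Fin 1 → U) =>
      ((¬ AvoidP N (s h) (x 0)) ↔ c h)) fun h => diff DPC (dnot DPC (avG DPC N h 0)) (dpr DPC _)))
      fun v => ?_
    constructor
    · rintro ⟨h, k⟩
      refine ⟨h, funext fun a => ?_⟩
      rw [hmu, hf v h]
      exact propext (k a)
    · rintro ⟨h, k⟩
      refine ⟨h, fun a => ?_⟩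
      have k2 := congrFun k a
      rw [hmu, hf v h] at k2
      exact iff_of_eq k2
  · refine dcg (dand DPC (hD (fun j => Sum.inl ((0 : Fin 1), j))) (dfin DPC
      (P := fun (j : Fin N) (v : (Fin 1 × Fin N) ⊕ Fin 1 → C) =>
        v (Sum.inl ((0 : Fin 1), j)) = v (Sum.inr 0)) fun j => deq DPC _ _)) fun v => ?_
    constructor
    · rintro ⟨h, k⟩
      have hc : ∀ a, s a (e (v (Sum.inr 0))) = e (v (Sum.inr 0)) := (hfix _).2 ⟨_, rfl⟩
      have hk : g (fun j => v (Sum.inl ((0 : Fin 1), j))) = e (v (Sum.inr 0)) := by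
        refine ((gi _ _).2 fun i => ?_).2
        show _ = e (v (Sum.inl ((0 : Fin 1), i)))
        rw [h4 _ hc, k i]
      have hh : ∀ a, s a (g (fun j => v (Sum.inl ((0 : Fin 1), j)))) =
          g (fun j => v (Sum.inl ((0 : Fin 1), j))) := by
        intro a
        rw [hk, hc]
      refine ⟨fun i => ?_, hh, ?_⟩
      · rw [Subsingleton.elim i 0]
        exact h
      · refine einj _ _ ?_
        rw [hf]
        · exact hk
        · exact hh
    · rintro ⟨h, k, l⟩
      have k' : ∀ a, s a (g (fun j => v (Sum.inl ((0 : Fin 1), j)))) =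
        g (fun j => v (Sum.inl ((0 : Fin 1), j))) := k
      refine ⟨h 0, fun j => einj _ _ ?_⟩
      rw [← l, hf _ k]
      have q := hg (fun j => v (Sum.inl ((0 : Fin 1), j))) (h 0) j
      rw [h4 _ k'] at q
      exact q.symm

/-- the element of the group of a symbol -/
def gOf {G : Type} : (l : ℕ) → FunG G l → G
  | _, .act g => g

theorem finLG (G : Type) [Finite G] : Finite (LG G).Symbols := by
  haveI h1 : Finite (Σ l, (LG G).Functions l) := by
    refine Finite.of_injective (fun F : (Σ l, (LG G).Functions l) => (gOf F.1 F.2 : G)) ?_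
    rintro ⟨l, F⟩ ⟨k, F'⟩ h
    change FunG G l at F
    change FunG G k at F'
    obtain ⟨a⟩ := F
    obtain ⟨b⟩ := F'
    have hab : a = b := h
    subst hab
    rfl
  haveI h2 : Finite (Σ l, (LG G).Relations l) := by
    refine Finite.of_injective (fun _ : (Σ l, (LG G).Relations l) => ()) ?_
    rintro ⟨l, F⟩ ⟨k, F'⟩ _
    change RelG l at F
    change RelG k at F'
    cases F
    cases F'
    rfl
  exact inferInstanceAs (Finite ((Σ l, (LG G).Functions l) ⊕ Σ l, (LG G).Relations l))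

theorem gen (DPC : S_DPC) (AGA : S_AGA) (G : Type) [CommGroup G] [Finite G] (U : Type)
    [BooleanAlgebra U] [Countable U] [Infinite U] (s : G → U → U)
    (hs : ∀ g a b, a ≤ b ↔ s g a ≤ s g b) (hs1 : ∀ a, s 1 a = a)
    (hm : ∀ g h a, s (g * h) a = s g (s h a)) :
    ∃ (C : Type) (_ : BooleanAlgebra C) (mu : C → G → Prop), Countable C ∧ Infinite C ∧
      @AM (G → Prop) (unM G) C _ mu ∧ BiU (strG (· ≤ ·) s) mu := by
  obtain ⟨Φ, h1, h2, h3, h4, h5, h6⟩ := AGA G U s hs hs1 hm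
  have ssup : ∀ h a b, s h (a ⊔ b) = s h a ⊔ s h b := fun h => map_sup (sOG hs hs1 hm h)
  have smono : ∀ h a b, a ≤ b → s h a ≤ s h b := fun h a b => (hs h a b).1
  have Φinj : ∀ a b, Φ a = Φ b → a = b := fun a b h =>
    le_antisymm ((h2 _ _).2 fun i => by rw [h]) ((h2 _ _).2 fun i => by rw [h])
  refine ⟨fxG hs hs1 hm, inferInstance, fun c h => ¬ AvoidP (Nat.card G) (s h) (c : U),
    ?_, ?_, ?_, ?_⟩
  · exact Subtype.countable
  · refine not_finite_iff_infinite.1 fun hfin => ?_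
    have : Function.Injective (fun (u : U) (i : G) => (⟨Φ u i, h1 u i⟩ : fxG hs hs1 hm)) :=
      fun a b h => Φinj _ _ (funext fun i => congrArg Subtype.val (congrFun h i))
    exact (Finite.of_injective _ this).false
  · refine @AM.mk _ (unM G) _ _ _ ?_ ?_
    · show (fun h => ¬ AvoidP (Nat.card G) (s h) (⊥ : U)) = fun _ => False
      funext h
      rw [nF]
      exact av_bot
    · intro a b hab
      show (fun h => ¬ AvoidP (Nat.card G) (s h) ((a : U) ⊔ (b : U))) =
        fun h => ((¬ AvoidP (Nat.card G) (s h) (a : U)) ∨ (¬ AvoidP (Nat.card G) (s h) (b : U)))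
      have hab' : (a : U) ⊓ (b : U) = ⊥ := congrArg Subtype.val (disjoint_iff.1 hab)
      funext h
      refine propext ?_
      rw [← not_and_or, not_iff_not]
      exact ⟨fun k => ⟨av_mono (smono h) k le_sup_left, av_mono (smono h) k le_sup_right⟩,
        fun k => av_sup (smono h) (ssup h) k.1 k.2 (a.2 h) (b.2 h) hab'⟩
  · exact main DPC (Finite.equivFin G).symm h1 h2 h3 h4 h5 h6
      (fun c : fxG hs hs1 hm => (c : U)) (fun a b => Iff.rfl)
      (fun u => ⟨fun h => ⟨⟨u, h⟩, rfl⟩, fun ⟨c, h⟩ => h ▸ c.2⟩) (fun a b => rfl) _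
      (fun c h => rfl)

theorem AGB (DPC : S_DPC) (BMD : S_BMD) (AGA : S_AGA) : S_AGB := by
  intro G _ _ bo s hs hs1 hm
  obtain ⟨C, _, mu, hC, hI, hA, hB⟩ :=
    @gen DPC AGA G _ _ ℕ bo inferInstance inferInstance s hs hs1 hm
  exact @BMD (LG G) (finLG G) (strG bo.le s) (G → Prop) (unM G) inferInstance C _ hC hI mu hA hB

end Pool.Agent.N280.VB.AGB
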